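import Pool.Agent.Helper76.Wco

set_option autoImplicit false
open Metric

namespace Pool.Agent.Results.MP_4b0b35_an.SpectrumZero

/-- The Hardy space of the unit disc: square-summable sequences of Taylor coefficients. -/
abbrev H2 : Type := ↥(lp (fun _ : ℕ => ℂ) 2)

/-- The value at `z` of the function whose Taylor coefficients are `a`. -/
noncomputable def val (a : H2) (z : ℂ) : ℂ := ∑' n : ℕ, a n * z ^ n

/-- `T` is the weighted composition operator `f ↦ ψ · (f ∘ φ)` on the Hardy space. -/
def IsWeightedComposition (ψ φ : ℂ → ℂ) (T : H2 →L[ℂ] H2) : Prop :=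
  ∀ a : H2, ∀ z ∈ ball (0 : ℂ) 1, val (T a) z = ψ z * val a (φ z)

/-- The spectrum of every compact weighted composition operator on the Hardy space whose symbol
`φ` has no fixed point in the open disc is `{0}`; there are no nonzero eigenvalues. -/
theorem result (ψ φ : ℂ → ℂ)
    (hψ : DifferentiableOn ℂ ψ (ball (0 : ℂ) 1))
    (hφ : DifferentiableOn ℂ φ (ball (0 : ℂ) 1))
    (hmaps : Set.MapsTo φ (ball (0 : ℂ) 1) (ball (0 : ℂ) 1))
    (hfix : ∀ z ∈ ball (0 : ℂ) 1, φ z ≠ z)
    (T : H2 →L[ℂ] H2) (hT : IsWeightedComposition ψ φ T) (hcomp : IsCompactOperator (⇑T)) :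
    spectrum ℂ T = {0} ∧ ∀ μ : ℂ, μ ≠ 0 → ∀ f : H2, T f = μ • f → f = 0 := by
  have h1 : spectrum ℂ T = {0} := by
    apply Pool.Agent.Helper76.Wco.spectrum_eq (ψ := ψ) (φ := φ) hψ hφ
    · intro z hz
      have := hmaps (show z ∈ ball (0 : ℂ) 1 by simpa using hz)
      simpa using this
    · intro z hz
      exact hfix z (by simpa using hz)
    · intro f z hz
      exact hT f z (by simpa using hz)
    · exact hcomp
  refine ⟨h1, ?_⟩
  intro μ hμ f hf
  by_contra hne
  have h2 : μ ∈ spectrum ℂ T := by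
    apply (hcomp.hasEigenvalue_iff_mem_spectrum hμ).mp
    apply Module.End.hasEigenvalue_of_hasEigenvector (x := f)
    refine ⟨?_, hne⟩
    rw [Module.End.mem_eigenspace_iff]
    exact hf
  rw [h1, Set.mem_singleton_iff] at h2
  exact hμ h2

end Pool.Agent.Results.MP_4b0b35_an.SpectrumZero
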